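import Pool.Agent.W743.GV.Stm

/-! Project GV, part ROT: the Rodrigues rotation (helper212). -/

set_option autoImplicit false

open Pool.Agent.W743.GV

namespace Pool.Agent.W212.GV

noncomputable section

/-- Rodrigues matrix -/
def Rm (a b c C s : ℝ) : Matrix (Fin 3) (Fin 3) ℝ :=
  !![C + (1 - C) * a ^ 2, (1 - C) * a * b - s * c, (1 - C) * a * c + s * b;
     (1 - C) * b * a + s * c, C + (1 - C) * b ^ 2, (1 - C) * b * c - s * a;
     (1 - C) * c * a - s * b, (1 - C) * c * b + s * a, C + (1 - C) * c ^ 2]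

theorem Rm_orth {a b c C s : ℝ} (h1 : a ^ 2 + b ^ 2 + c ^ 2 = 1) (h2 : C ^ 2 + s ^ 2 = 1) :
    Rm a b c C s * (Rm a b c C s).transpose = 1 := by
  ext i j
  fin_cases i <;> fin_cases j <;>
    simp [Rm, Matrix.mul_apply, Fin.sum_univ_three]
  · linear_combination ((1 - C) ^ 2 * a ^ 2 + s ^ 2) * h1 + (1 - a ^ 2) * h2
  · linear_combination ((1 - C) ^ 2 * a * b) * h1 - (a * b) * h2
  · linear_combination ((1 - C) ^ 2 * a * c) * h1 - (a * c) * h2
  · linear_combination ((1 - C) ^ 2 * a * b) * h1 - (a * b) * h2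
  · linear_combination ((1 - C) ^ 2 * b ^ 2 + s ^ 2) * h1 + (1 - b ^ 2) * h2
  · linear_combination ((1 - C) ^ 2 * b * c) * h1 - (b * c) * h2
  · linear_combination ((1 - C) ^ 2 * a * c) * h1 - (a * c) * h2
  · linear_combination ((1 - C) ^ 2 * b * c) * h1 - (b * c) * h2
  · linear_combination ((1 - C) ^ 2 * c ^ 2 + s ^ 2) * h1 + (1 - c ^ 2) * h2

theorem Rm_det {a b c C s : ℝ} (h1 : a ^ 2 + b ^ 2 + c ^ 2 = 1) (h2 : C ^ 2 + s ^ 2 = 1) :
    (Rm a b c C s).det = 1 := by
  rw [Matrix.det_fin_three]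
  simp only [Rm, Matrix.of_apply, Matrix.cons_val', Matrix.cons_val_zero, Matrix.cons_val_one,
    Matrix.cons_val, Matrix.cons_val_fin_one]
  linear_combination h2 + (s ^ 2 + (C ^ 2 + s ^ 2 * (a ^ 2 + b ^ 2 + c ^ 2)) * (1 - C)) * h1

theorem t_ROT : S_ROT := by
  intro n hn t
  have h1 : n 0 ^ 2 + n 1 ^ 2 + n 2 ^ 2 = 1 := by
    have := EuclideanSpace.norm_sq_eq n
    rw [hn, Fin.sum_univ_three] at this
    simp only [Real.norm_eq_abs, sq_abs, one_pow] at this
    exact this.symm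
  have h2 : Real.cos t ^ 2 + Real.sin t ^ 2 = 1 := Real.cos_sq_add_sin_sq t
  refine ⟨Rm (n 0) (n 1) (n 2) (Real.cos t) (Real.sin t), ?_, ?_, ?_⟩
  · rw [Matrix.mem_specialOrthogonalGroup_iff, Matrix.mem_orthogonalGroup_iff]
    exact ⟨Rm_orth h1 h2, Rm_det h1 h2⟩
  · ext i
    fin_cases i
    · simp [Matrix.toEuclideanLin, Rm, Matrix.mulVec, dotProduct, Fin.sum_univ_three]
      linear_combination ((1 - Real.cos t) * n 0) * h1
    · simp [Matrix.toEuclideanLin, Rm, Matrix.mulVec, dotProduct, Fin.sum_univ_three]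
      linear_combination ((1 - Real.cos t) * n 1) * h1
    · simp [Matrix.toEuclideanLin, Rm, Matrix.mulVec, dotProduct, Fin.sum_univ_three]
      linear_combination ((1 - Real.cos t) * n 2) * h1
  · intro v
    ext i
    fin_cases i
    · simp [Matrix.toEuclideanLin, Rm, Matrix.mulVec, dotProduct, Fin.sum_univ_three, crs, inner]
      ring
    · simp [Matrix.toEuclideanLin, Rm, Matrix.mulVec, dotProduct, Fin.sum_univ_three, crs, inner]
      ring
    · simp [Matrix.toEuclideanLin, Rm, Matrix.mulVec, dotProduct, Fin.sum_univ_three, crs, inner]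
      ring

end

end Pool.Agent.W212.GV
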